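import Mathlib

set_option autoImplicit false

/-!
# Iterating an affine map on an arithmetic progression

If a permutation `ρ` of `ℤ` agrees with an affine map `H` of positive slope on a set `W` of integers
which is closed under continuing arithmetic progressions, and `x₀`, `H x₀` are different members of
`W`, then `ρ` has infinite order.
-/

namespace Pool.Agent.X267.CT

/-- Closed under continuing arithmetic progressions. -/
def Lin (W : Set ℚ) : Prop := ∀ x δ : ℚ, x ∈ W → x + δ ∈ W → ∀ k : ℤ, x + k * δ ∈ W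

theorem exists_uv (a b : ℤ) (hab : IsCoprime a b) (hb : 0 < b) (n : ℕ) :
    ∃ u v : ℤ, u * (a - b) + v * b ^ n = 1 ∧ v ≠ 0 := by
  have h1 : IsCoprime (a - b) (b ^ n) := by
    apply IsCoprime.pow_right
    have := IsCoprime.add_mul_left_left hab (-1)
    have e : a + b * (-1) = a - b := by ring
    rwa [e] at this
  obtain ⟨u, v, huv⟩ := h1
  by_cases hv : v = 0
  · subst hv
    refine ⟨u + b ^ n, -(a - b), ?_, ?_⟩
    · linarith
    · intro h
      have : a - b = 0 := by linarith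
      rw [this] at huv
      simp at huv
  · exact ⟨u, v, huv, hv⟩

theorem inf_of (ρ : Equiv.Perm ℤ) (H : ℚ → ℚ) (α β : ℚ) (hα : 0 < α)
    (hH : ∀ x, H x = α * x + β) (W : Set ℚ) (hW : Lin W)
    (hρ : ∀ y : ℤ, (y : ℚ) ∈ W → ((ρ y : ℤ) : ℚ) = H y)
    (hint : ∀ x ∈ W, ∃ y : ℤ, (y : ℚ) = x) (x₀ : ℚ) (hx : x₀ ∈ W) (h1 : H x₀ ∈ W)
    (hne : H x₀ ≠ x₀) (n : ℕ) (hn : 0 < n) : ρ ^ n ≠ 1 := by
  intro hρn
  set δ := H x₀ - x₀ with hδ
  have hδ0 : δ ≠ 0 := sub_ne_zero.mpr hne
  have hcop : IsCoprime α.num (α.den : ℤ) := by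
    rw [Int.isCoprime_iff_gcd_eq_one]
    have := α.reduced
    simpa [Int.gcd, Nat.Coprime] using this
  have hbpos : (0 : ℤ) < α.den := by exact_mod_cast α.pos
  obtain ⟨u, v, huv, hv⟩ := exists_uv α.num α.den hcop hbpos n
  have hbq : (α.den : ℚ) ≠ 0 := by exact_mod_cast α.den_ne_zero
  have hab : α * (α.den : ℚ) = (α.num : ℚ) := Rat.mul_den_eq_num α
  let ζ : ℕ → ℚ := fun i => Nat.rec (-(α.den : ℚ) * u) (fun _ z => 1 + α * z) i
  have hζ0 : ζ 0 = -(α.den : ℚ) * u := rfl
  have hζs : ∀ i, ζ (i + 1) = 1 + α * ζ i := fun i => rfl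
  have hdiff : ∀ i, ζ (i + 1) - ζ i = α ^ i * (v * (α.den : ℚ) ^ n) := by
    intro i
    induction i with
    | zero =>
      rw [hζs, hζ0, pow_zero, one_mul]
      have huv' : (u : ℚ) * ((α.num : ℚ) - (α.den : ℚ)) + v * (α.den : ℚ) ^ n = 1 := by
        exact_mod_cast huv
      have : α * (-(α.den : ℚ) * u) = -(α.num : ℚ) * u := by
        rw [← hab]; ring
      rw [this]
      linarith
    | succ i ih =>
      rw [hζs (i + 1), hζs i]
      have : 1 + α * (1 + α * ζ i) - (1 + α * ζ i) = α * (ζ (i + 1) - ζ i) := by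
        rw [hζs i]; ring
      rw [this, ih]; ring
  have hz : ∀ i ≤ n, ∃ k : ℤ, ζ i = k := by
    intro i
    induction i with
    | zero => intro _; exact ⟨-(α.den : ℤ) * u, by rw [hζ0]; push_cast; ring⟩
    | succ i ih =>
      intro hi
      obtain ⟨k, hk⟩ := ih (by omega)
      refine ⟨k + v * α.num ^ i * (α.den : ℤ) ^ (n - i), ?_⟩
      have := hdiff i
      rw [hk] at this
      have e : α ^ i * (v * (α.den : ℚ) ^ n) = v * (α.num : ℚ) ^ i * (α.den : ℚ) ^ (n - i) := by
        have e1 : (α.den : ℚ) ^ n = (α.den : ℚ) ^ i * (α.den : ℚ) ^ (n - i) := by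
          rw [← pow_add]; congr 1; omega
        rw [e1, ← hab, mul_pow]; ring
      rw [e] at this
      push_cast
      linarith
  have hmem : ∀ i ≤ n, x₀ + ζ i * δ ∈ W := by
    intro i hi
    obtain ⟨k, hk⟩ := hz i hi
    rw [hk]
    exact hW x₀ δ hx (by rw [hδ]; simpa using h1) k
  have hstep : ∀ i, H (x₀ + ζ i * δ) = x₀ + ζ (i + 1) * δ := by
    intro i
    rw [hH, hζs]
    have : H x₀ = α * x₀ + β := hH x₀
    have e : δ = α * x₀ + β - x₀ := by rw [hδ, this]
    have : α * (x₀ + ζ i * δ) + β = x₀ + (α * x₀ + β - x₀) + α * ζ i * δ := by ring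
    rw [this, ← e]; ring
  obtain ⟨y, hy⟩ := hint _ (hmem 0 (Nat.zero_le _))
  have hiter : ∀ i ≤ n, (((ρ ^ i) y : ℤ) : ℚ) = x₀ + ζ i * δ := by
    intro i
    induction i with
    | zero => intro _; simpa using hy
    | succ i ih =>
      intro hi
      have h2 := ih (by omega)
      have h3 : (((ρ ^ i) y : ℤ) : ℚ) ∈ W := by rw [h2]; exact hmem i (by omega)
      have h4 := hρ _ h3
      rw [pow_succ', Equiv.Perm.mul_apply, h4, h2, hstep]
  have hfin := hiter n le_rfl
  rw [hρn] at hfin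
  have h5 : (y : ℚ) = x₀ + ζ n * δ := by simpa using hfin
  rw [hy] at h5
  have h6 : ζ n = ζ 0 := by
    have : (ζ 0 - ζ n) * δ = 0 := by linarith
    rcases mul_eq_zero.mp this with h | h
    · linarith
    · exact absurd h hδ0
  -- strictly monotone in the direction of v
  have hb' : (0 : ℚ) < (α.den : ℚ) := by exact_mod_cast α.pos
  rcases lt_or_gt_of_ne hv with hv0 | hv0
  · have hmono : ∀ i, ζ (i + 1) < ζ i := by
      intro i
      have := hdiff i
      have h7 : (v : ℚ) < 0 := by exact_mod_cast hv0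
      have h8 : α ^ i * (v * (α.den : ℚ) ^ n) < 0 :=
        mul_neg_of_pos_of_neg (pow_pos hα i) (mul_neg_of_neg_of_pos h7 (pow_pos hb' n))
      linarith
    have : ζ n < ζ 0 := strictAnti_nat_of_succ_lt hmono hn
    linarith
  · have hmono : ∀ i, ζ i < ζ (i + 1) := by
      intro i
      have := hdiff i
      have h7 : (0 : ℚ) < v := by exact_mod_cast hv0
      have h8 : 0 < α ^ i * (v * (α.den : ℚ) ^ n) :=
        mul_pos (pow_pos hα i) (mul_pos h7 (pow_pos hb' n))
      linarith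
    have : ζ 0 < ζ n := strictMono_nat_of_lt_succ hmono hn
    linarith

end Pool.Agent.X267.CT
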