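import Mathlib

set_option autoImplicit false

/-!
# A local-global principle for integrality of finitely many affine functions of one variable
-/

namespace Pool.Agent.X267.CT

theorem den_of_norm_le {p : ℕ} [hp : Fact p.Prime] {x : ℚ} (h : padicNorm p x ≤ 1) :
    ¬ p ∣ x.den := by
  intro hd
  have hn : ¬ (p : ℤ) ∣ x.num := by
    intro hn
    have h1 : p ∣ x.num.natAbs := Int.natCast_dvd.mp hn
    have := Nat.dvd_gcd h1 hd
    rw [x.reduced] at this
    exact hp.out.one_lt.ne' (Nat.dvd_one.mp this)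
  have h1 : padicNorm p (x.num : ℚ) = 1 := (padicNorm.int_eq_one_iff x.num).mpr hn
  have h2 : padicNorm p ((x.den : ℤ) : ℚ) < 1 := (padicNorm.int_lt_one_iff _).mpr (by exact_mod_cast hd)
  have h3 : padicNorm p x * padicNorm p ((x.den : ℤ) : ℚ) = 1 := by
    rw [← padicNorm.mul, ← h1]
    congr 1
    push_cast
    exact Rat.mul_den_eq_num x
  have h4 : 0 ≤ padicNorm p ((x.den : ℤ) : ℚ) := padicNorm.nonneg _
  have h5 : padicNorm p x * padicNorm p ((x.den : ℤ) : ℚ) ≤ 1 * padicNorm p ((x.den : ℤ) : ℚ) :=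
    mul_le_mul_of_nonneg_right h h4
  linarith

/-- From a rational solution of congruences modulo `p ^ k` to an integer one. -/
theorem local_int {ι : Type*} (C D : ι → ℤ) (N : ℕ) (p : ℕ) [hp : Fact p.Prime] (k : ℕ)
    (hk : p ^ k ∣ N) (z : ℚ) (hz : padicNorm p z ≤ 1)
    (h : ∀ i, ∃ w : ℚ, padicNorm p w ≤ 1 ∧ C i * z + D i = N * w) :
    ∃ n : ℤ, ∀ i, ((p ^ k : ℕ) : ℤ) ∣ C i * n + D i := by
  have hzd : ¬ p ∣ z.den := den_of_norm_le hz
  have hcop : Nat.Coprime z.den (p ^ k) :=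
    (Nat.Coprime.pow_right k ((Nat.Prime.coprime_iff_not_dvd hp.out).mpr hzd).symm)
  have hcop' : IsCoprime (z.den : ℤ) ((p ^ k : ℕ) : ℤ) := Nat.isCoprime_iff_coprime.mpr hcop
  obtain ⟨u, v, huv⟩ := hcop'
  refine ⟨z.num * u, fun i => ?_⟩
  obtain ⟨w, hw, hCD⟩ := h i
  have hwd : ¬ p ∣ w.den := den_of_norm_le hw
  have hcopw : IsCoprime ((p ^ k : ℕ) : ℤ) (w.den : ℤ) :=
    Nat.isCoprime_iff_coprime.mpr
      (Nat.Coprime.pow_left k ((Nat.Prime.coprime_iff_not_dvd hp.out).mpr hwd))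
  have key : (w.den : ℤ) * (C i * z.num + D i * z.den) = N * (w.num * z.den) := by
    have e1 : z * z.den = z.num := Rat.mul_den_eq_num z
    have e2 : w * w.den = w.num := Rat.mul_den_eq_num w
    have : (w.den : ℚ) * (C i * z.num + D i * z.den) = N * (w.num * z.den) := by
      rw [← e1, ← e2]
      have : (w.den : ℚ) * (C i * (z * z.den) + D i * z.den) =
        w.den * z.den * (C i * z + D i) := by ring
      rw [this, hCD]; ring
    exact_mod_cast this
  have hd : ((p ^ k : ℕ) : ℤ) ∣ (w.den : ℤ) * (C i * z.num + D i * z.den) := by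
    rw [key]
    exact Dvd.dvd.mul_right (by exact_mod_cast hk) _
  have hd2 : ((p ^ k : ℕ) : ℤ) ∣ C i * z.num + D i * z.den := hcopw.dvd_of_dvd_mul_left hd
  have e : C i * (z.num * u) + D i = u * (C i * z.num + D i * z.den) +
      ((p ^ k : ℕ) : ℤ) * (D i * v) := by
    have : D i = D i * (u * z.den + v * ((p ^ k : ℕ) : ℤ)) := by rw [huv, mul_one]
    linear_combination this
  rw [e]
  exact dvd_add (Dvd.dvd.mul_left hd2 _) (Dvd.intro _ rfl)

theorem crt {ι : Type*} (C D : ι → ℤ) (N : ℕ) (hN : N ≠ 0) :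
    (∀ p k : ℕ, p.Prime → p ^ k ∣ N → ∃ n : ℤ, ∀ i, ((p ^ k : ℕ) : ℤ) ∣ C i * n + D i) →
    ∃ n : ℤ, ∀ i, (N : ℤ) ∣ C i * n + D i := by
  induction N using Nat.recOnPrimeCoprime with
  | zero => exact absurd rfl hN
  | prime_pow p n hp =>
    intro h
    exact h p n hp dvd_rfl
  | coprime a b ha hb hab iha ihb =>
    intro h
    obtain ⟨x, hx⟩ := iha (by omega) (fun p k hp hk => h p k hp (hk.mul_right b))
    obtain ⟨y, hy⟩ := ihb (by omega) (fun p k hp hk => h p k hp (hk.mul_left a))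
    obtain ⟨u, v, huv⟩ : IsCoprime (a : ℤ) (b : ℤ) := Nat.isCoprime_iff_coprime.mpr hab
    refine ⟨y * (u * a) + x * (v * b), fun i => ?_⟩
    have h1 : (a : ℤ) ∣ C i * (y * (u * a) + x * (v * b)) + D i := by
      have e : C i * (y * (u * a) + x * (v * b)) + D i =
          (C i * x + D i) + a * (C i * (y - x) * u) := by
        linear_combination (C i * x) * huv
      rw [e]
      exact dvd_add (hx i) (Dvd.intro _ rfl)
    have h2 : (b : ℤ) ∣ C i * (y * (u * a) + x * (v * b)) + D i := by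
      have e : C i * (y * (u * a) + x * (v * b)) + D i =
          (C i * y + D i) + b * (C i * (x - y) * v) := by
        linear_combination (C i * y) * huv
      rw [e]
      exact dvd_add (hy i) (Dvd.intro _ rfl)
    push_cast
    exact IsCoprime.mul_dvd ⟨u, v, huv⟩ h1 h2

/-- Affine with positive slope. -/
def Aff (h : ℚ → ℚ) : Prop := ∃ c d : ℚ, 0 < c ∧ ∀ q, h q = c * q + d

theorem Aff.comp {h k : ℚ → ℚ} (hh : Aff h) (hk : Aff k) : Aff (fun x => h (k x)) := by
  obtain ⟨c, d, hc, h1⟩ := hh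
  obtain ⟨c', d', hc', h2⟩ := hk
  refine ⟨c * c', c * d' + d, mul_pos hc hc', fun q => ?_⟩
  change h (k q) = _
  rw [h1, h2]; ring

theorem exists_common_den {ι : Type*} [Fintype ι] (c : ι → ℚ) :
    ∃ N : ℕ, N ≠ 0 ∧ ∀ i, ∃ C : ℤ, c i * N = C := by
  classical
  refine ⟨∏ i, (c i).den, Finset.prod_ne_zero_iff.mpr (fun i _ => (c i).den_ne_zero), fun i => ?_⟩
  refine ⟨(c i).num * (∏ j ∈ Finset.univ.erase i, (c j).den : ℕ), ?_⟩
  rw [← Finset.mul_prod_erase Finset.univ (fun i => (c i).den) (Finset.mem_univ i)]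
  push_cast
  rw [← mul_assoc, Rat.mul_den_eq_num]

/-- The local-global principle. -/
theorem LG {ι : Type*} [Fintype ι] (L : ι → ℚ → ℚ) (hL : ∀ i, Aff (L i)) (i0 : ι)
    (h : ∀ p : ℕ, p.Prime → ∃ q : ℚ, ∀ i, padicNorm p (L i q) ≤ 1) :
    ∃ q q' : ℚ, q ≠ q' ∧ (∀ i, ∃ k : ℤ, L i q = k) ∧ (∀ i, ∃ k : ℤ, L i q' = k) := by
  classical
  choose c d hc hcd using hL
  have hc0 : c i0 ≠ 0 := (hc i0).ne'
  -- in terms of `z = c i0 * q + d i0`
  let c' : ι → ℚ := fun i => c i / c i0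
  let d' : ι → ℚ := fun i => d i - c i / c i0 * d i0
  have hz : ∀ i q, L i q = c' i * L i0 q + d' i := by
    intro i q
    rw [hcd, hcd]
    simp only [c', d']
    field_simp
    ring
  obtain ⟨N₁, hN₁, hC⟩ := exists_common_den c'
  obtain ⟨N₂, hN₂, hD⟩ := exists_common_den d'
  choose C₁ hC₁ using hC
  choose D₁ hD₁ using hD
  set N := N₁ * N₂ with hNdef
  have hN : N ≠ 0 := mul_ne_zero hN₁ hN₂
  have hNq : (N : ℚ) ≠ 0 := by exact_mod_cast hN
  let C : ι → ℤ := fun i => C₁ i * N₂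
  let D : ι → ℤ := fun i => D₁ i * N₁
  have hC : ∀ i, c' i * N = C i := by
    intro i
    simp only [C, hNdef]
    push_cast
    rw [← hC₁ i]; ring
  have hD : ∀ i, d' i * N = D i := by
    intro i
    simp only [D, hNdef]
    push_cast
    rw [← hD₁ i]; ring
  obtain ⟨Z, hZ⟩ := crt C D N hN (by
    intro p k hp hk
    have : Fact p.Prime := ⟨hp⟩
    obtain ⟨q, hq⟩ := h p hp
    refine local_int C D N p k hk (L i0 q) (hq i0) (fun i => ⟨L i q, hq i, ?_⟩)
    rw [hz i q, ← hC i, ← hD i]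
    ring)
  -- the two solutions
  have sol : ∀ Z' : ℤ, (∀ i, (N : ℤ) ∣ C i * Z' + D i) →
      ∀ i, ∃ k : ℤ, L i ((Z' - d i0) / c i0) = k := by
    intro Z' hZ' i
    obtain ⟨k, hk⟩ := hZ' i
    refine ⟨k, ?_⟩
    rw [hz i]
    have e : L i0 ((Z' - d i0) / c i0) = Z' := by
      rw [hcd]; field_simp; ring
    rw [e]
    have hk' : (C i : ℚ) * Z' + D i = N * k := by exact_mod_cast hk
    rw [← hC, ← hD] at hk'
    have : (N : ℚ) * (c' i * Z' + d' i) = N * k := by linarith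
    exact mul_left_cancel₀ hNq this
  refine ⟨(Z - d i0) / c i0, ((Z + N : ℤ) - d i0) / c i0, ?_, sol Z hZ, sol (Z + N) ?_⟩
  · intro heq
    rw [div_left_inj' hc0] at heq
    push_cast at heq
    apply hNq
    linarith
  · intro i
    have e : C i * (Z + N) + D i = (C i * Z + D i) + N * C i := by ring
    rw [e]
    exact dvd_add (hZ i) (Dvd.intro _ rfl)

end Pool.Agent.X267.CT
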