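import Mathlib

set_option autoImplicit false

/-!
# The local lemma for two swaps of balls in an ultrametric space
-/

namespace Pool.Agent.X267.CT

/-- The ball with centre `a` and radius `α`. -/
def Bl (N : ℚ → ℚ) (a α : ℚ) : Set ℚ := {x | N (x - a) ≤ α}

/-- A window `x₁ g x₂ G x₃ g x₄` of a path. -/
structure Win (A B C D : Set ℚ) (f F g G : ℚ → ℚ) (e1 e2 e3 e4 : Bool) (q1 q2 q3 q4 q5 q6 : ℚ) :
    Prop where
  h1 : q1 ∈ C
  k1 : q1 ∈ bif e1 then B else A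
  h2 : q2 = g q1
  k2 : q2 ∈ bif e2 then A else B
  h3 : q3 = bif e2 then f q2 else F q2
  k3 : q3 ∈ D
  h4 : q4 = G q3
  k4 : q4 ∈ bif e3 then A else B
  h5 : q5 = bif e3 then f q4 else F q4
  k5 : q5 ∈ C
  h6 : q6 = g q5
  k6 : q6 ∈ bif e4 then A else B

/-- Not alternating. -/
def NA (e1 e2 e3 e4 : Bool) : Prop := ¬ (e1 = !e2 ∧ e2 = !e3 ∧ e3 = !e4)

theorem NA.not {e1 e2 e3 e4 : Bool} (h : NA e1 e2 e3 e4) : NA (!e1) (!e2) (!e3) (!e4) := by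
  revert h; unfold NA; revert e1 e2 e3 e4; decide

theorem NA.rev {e1 e2 e3 e4 : Bool} (h : NA e1 e2 e3 e4) : NA (!e4) (!e3) (!e2) (!e1) := by
  revert h; unfold NA; revert e1 e2 e3 e4; decide

theorem Win.flip {A B C D : Set ℚ} {f F g G : ℚ → ℚ} {e1 e2 e3 e4 : Bool} {q1 q2 q3 q4 q5 q6 : ℚ}
    (w : Win A B C D f F g G e1 e2 e3 e4 q1 q2 q3 q4 q5 q6) :
    Win B A C D F f g G (!e1) (!e2) (!e3) (!e4) q1 q2 q3 q4 q5 q6 := by
  obtain ⟨h1, k1, h2, k2, h3, k3, h4, k4, h5, k5, h6, k6⟩ := w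
  refine ⟨h1, ?_, h2, ?_, ?_, k3, h4, ?_, ?_, k5, h6, ?_⟩
  · cases e1 <;> simpa using k1
  · cases e2 <;> simpa using k2
  · cases e2 <;> simpa using h3
  · cases e3 <;> simpa using k4
  · cases e3 <;> simpa using h5
  · cases e4 <;> simpa using k6

theorem Win.rev {A B C D : Set ℚ} {f F g G : ℚ → ℚ} {e1 e2 e3 e4 : Bool} {q1 q2 q3 q4 q5 q6 : ℚ}
    (fA : ∀ x, x ∈ A → f x ∈ B) (FB : ∀ x, x ∈ B → F x ∈ A)
    (gC : ∀ x, x ∈ C → g x ∈ D) (GD : ∀ x, x ∈ D → G x ∈ C)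
    (Ff : ∀ x, F (f x) = x) (fF : ∀ x, f (F x) = x)
    (Gg : ∀ x, G (g x) = x) (gG : ∀ x, g (G x) = x)
    (w : Win A B C D f F g G e1 e2 e3 e4 q1 q2 q3 q4 q5 q6) :
    Win A B D C f F G g (!e4) (!e3) (!e2) (!e1) q6 q5 q4 q3 q2 q1 := by
  obtain ⟨h1, k1, h2, k2, h3, k3, h4, k4, h5, k5, h6, k6⟩ := w
  refine ⟨?_, ?_, ?_, ?_, ?_, ?_, ?_, ?_, ?_, ?_, ?_, ?_⟩
  · rw [h6]; exact gC _ k5
  · cases e4 <;> simpa using k6
  · rw [h6, Gg]
  · cases e3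
    · simp only [cond_false] at h5 k4 ⊢
      simp only [Bool.not_false, cond_true]
      rw [h5]; exact FB _ k4
    · simp only [cond_true] at h5 k4 ⊢
      simp only [Bool.not_true, cond_false]
      rw [h5]; exact fA _ k4
  · cases e3
    · simp only [Bool.not_false, cond_true]
      simp only [cond_false] at h5
      rw [h5, fF]
    · simp only [Bool.not_true, cond_false]
      simp only [cond_true] at h5
      rw [h5, Ff]
  · rw [h4]; exact GD _ k3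
  · rw [h4, gG]
  · cases e2
    · simp only [cond_false] at h3 k2 ⊢
      simp only [Bool.not_false, cond_true]
      rw [h3]; exact FB _ k2
    · simp only [cond_true] at h3 k2 ⊢
      simp only [Bool.not_true, cond_false]
      rw [h3]; exact fA _ k2
  · cases e2
    · simp only [Bool.not_false, cond_true]
      simp only [cond_false] at h3
      rw [h3, fF]
    · simp only [Bool.not_true, cond_false]
      simp only [cond_true] at h3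
      rw [h3, Ff]
  · rw [h2]; exact gC _ h1
  · rw [h2, Gg]
  · cases e1 <;> simpa using k1

/-- The symmetric and ultrametric properties. -/
structure Ult (N : ℚ → ℚ) : Prop where
  neg : ∀ x, N (-x) = N x
  add : ∀ x y, N (x + y) ≤ max (N x) (N y)

theorem Ult.symm {N : ℚ → ℚ} (h : Ult N) (x y : ℚ) : N (x - y) = N (y - x) := by
  rw [← h.neg (x - y)]; congr 1; ring

theorem Ult.tri {N : ℚ → ℚ} (h : Ult N) {x y z r : ℚ} (h1 : N (x - y) ≤ r) (h2 : N (y - z) ≤ r) :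
    N (x - z) ≤ r := by
  have e : x - z = (x - y) + (y - z) := by ring
  rw [e]
  exact (h.add _ _).trans (max_le h1 h2)

theorem Ult.dist_le {N : ℚ → ℚ} (h : Ult N) {a α x y : ℚ} (hx : x ∈ Bl N a α) (hy : y ∈ Bl N a α) :
    N (x - y) ≤ α := by
  have hy' : N (a - y) ≤ α := by rw [h.symm]; exact hy
  exact h.tri hx hy'

theorem Ult.mem {N : ℚ → ℚ} (h : Ult N) {a α x y r : ℚ} (hx : x ∈ Bl N a α) (hr : N (y - x) ≤ r)
    (hr' : r ≤ α) : y ∈ Bl N a α :=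
  h.tri (hr.trans hr') hx

/-- The local lemma. -/
theorem loc {N : ℚ → ℚ} (h : Ult N) {a b c e α β γ δ : ℚ} {f F g G : ℚ → ℚ}
    {e1 e2 e3 e4 : Bool} {q1 q2 q3 q4 q5 q6 : ℚ}
    (fA : ∀ x, x ∈ Bl N a α → f x ∈ Bl N b β) (FB : ∀ x, x ∈ Bl N b β → F x ∈ Bl N a α)
    (gC : ∀ x, x ∈ Bl N c γ → g x ∈ Bl N e δ) (GD : ∀ x, x ∈ Bl N e δ → G x ∈ Bl N c γ)
    (fF : ∀ x, f (F x) = x)
    (Gg : ∀ x, G (g x) = x) (gG : ∀ x, g (G x) = x)
    (hαβ : β ≤ α) (fcon : ∀ x y, N (f x - f y) ≤ N (x - y)) (gcon : ∀ x y, N (g x - g y) ≤ N (x - y))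
    (Gmon : ∀ x y x' y', N (x - y) ≤ N (x' - y') → N (G x - G y) ≤ N (G x' - G y'))
    (hna : NA e1 e2 e3 e4)
    (w : Win (Bl N a α) (Bl N b β) (Bl N c γ) (Bl N e δ) f F g G e1 e2 e3 e4 q1 q2 q3 q4 q5 q6) :
    ∀ q, q ∈ Bl N b β → q ∈ Bl N c γ → g q ∈ Bl N a α ∧ f (g q) ∈ Bl N e δ ∧
      G (f (g q)) ∈ Bl N a α ∧ f (G (f (g q))) ∈ Bl N c γ := by
  obtain ⟨h1, k1, h2, k2, h3, k3, h4, k4, h5, k5, h6, k6⟩ := w
  have hq2D : q2 ∈ Bl N e δ := by rw [h2]; exact gC _ h1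
  have hq4C : q4 ∈ Bl N c γ := by rw [h4]; exact GD _ k3
  -- the pair `{q2, q3} = {z, f z}`
  obtain ⟨z, hzA, hzD, hfzD, hz⟩ : ∃ z, z ∈ Bl N a α ∧ z ∈ Bl N e δ ∧ f z ∈ Bl N e δ ∧
      ((z = q2 ∧ f z = q3 ∧ e2 = true) ∨ (z = q3 ∧ f z = q2 ∧ e2 = false)) := by
    cases e2
    · simp only [cond_false] at h3 k2
      refine ⟨q3, ?_, k3, ?_, Or.inr ⟨rfl, ?_, rfl⟩⟩
      · rw [h3]; exact FB _ k2
      · rw [h3, fF]; exact hq2D
      · rw [h3, fF]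
    · simp only [cond_true] at h3 k2
      exact ⟨q2, k2, hq2D, by rw [← h3]; exact k3, Or.inl ⟨rfl, h3.symm, rfl⟩⟩
  obtain ⟨y, hyA, hyC, hfyC, hy⟩ : ∃ z, z ∈ Bl N a α ∧ z ∈ Bl N c γ ∧ f z ∈ Bl N c γ ∧
      ((z = q4 ∧ f z = q5 ∧ e3 = true) ∨ (z = q5 ∧ f z = q4 ∧ e3 = false)) := by
    cases e3
    · simp only [cond_false] at h5 k4
      refine ⟨q5, ?_, k5, ?_, Or.inr ⟨rfl, ?_, rfl⟩⟩
      · rw [h5]; exact FB _ k4
      · rw [h5, fF]; exact hq4C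
      · rw [h5, fF]
    · simp only [cond_true] at h5 k4
      exact ⟨q4, k4, hq4C, by rw [← h5]; exact k5, Or.inl ⟨rfl, h5.symm, rfl⟩⟩
  -- `f (A ∩ D) ⊆ D` and `f (A ∩ C) ⊆ C`
  have hD : ∀ x, x ∈ Bl N a α → x ∈ Bl N e δ → f x ∈ Bl N e δ := fun x _ hxD =>
    h.mem hfzD (fcon x z) (h.dist_le hxD hzD)
  have hC : ∀ x, x ∈ Bl N a α → x ∈ Bl N c γ → f x ∈ Bl N c γ := fun x _ hxC =>
    h.mem hfyC (fcon x y) (h.dist_le hxC hyC)
  -- it is enough to show (1) and (3)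
  suffices H : (∀ q, q ∈ Bl N b β → q ∈ Bl N c γ → g q ∈ Bl N a α) ∧
      (∀ q, q ∈ Bl N b β → q ∈ Bl N c γ → g q ∈ Bl N a α → G (f (g q)) ∈ Bl N a α) by
    intro q hqB hqC
    have s1 := H.1 q hqB hqC
    have s2 := hD _ s1 (gC _ hqC)
    have s3 := H.2 q hqB hqC s1
    exact ⟨s1, s2, s3, hC _ s3 (GD _ s2)⟩
  -- the key comparison
  have Gcon : ∀ x z, N (G (f x) - G (f z)) ≤ N (G x - G z) := fun x z => Gmon _ _ _ _ (fcon x z)
  by_cases hAB : ∃ x, x ∈ Bl N a α ∧ x ∈ Bl N b β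
  · obtain ⟨x₀, hx₀A, hx₀B⟩ := hAB
    have hBA : ∀ x, x ∈ Bl N b β → x ∈ Bl N a α := fun x hx =>
      h.mem hx₀A (h.dist_le hx hx₀B) hαβ
    have hany : ∀ (s : Bool) (x : ℚ), x ∈ (bif s then Bl N b β else Bl N a α) → x ∈ Bl N a α := by
      intro s x hx
      cases s
      · exact hx
      · exact hBA x hx
    have hany' : ∀ (s : Bool) (x : ℚ), x ∈ (bif s then Bl N a α else Bl N b β) → x ∈ Bl N a α := by
      intro s x hx
      cases s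
      · exact hBA x hx
      · exact hx
    have hq1A := hany e1 q1 k1
    have hq2A := hany' e2 q2 k2
    have hq4A := hany' e3 q4 k4
    constructor
    · intro q hqB _
      refine h.mem (r := N (q - q1)) (x := g q1) (by rw [← h2]; exact hq2A) (gcon _ _) ?_
      exact h.dist_le (hBA q hqB) hq1A
    · intro q hqB _ _
      have hG : G z ∈ Bl N a α ∧ G (f z) ∈ Bl N a α := by
        rcases hz with ⟨hz1, hz2, _⟩ | ⟨hz1, hz2, _⟩
        · rw [hz2, hz1, ← h4, h2, Gg]; exact ⟨hq1A, hq4A⟩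
        · rw [hz2, hz1, ← h4, h2, Gg]; exact ⟨hq4A, hq1A⟩
      refine h.mem hG.2 (Gcon (g q) z) ?_
      rw [Gg]
      exact h.dist_le (hBA q hqB) hG.1
  · push Not at hAB
    have hAB' : ∀ x y, x ∈ Bl N a α → y ∈ Bl N b β → ¬ N (y - x) ≤ α := fun x y hx hy hle =>
      hAB y (h.mem hx hle le_rfl) hy
    have hAB2 : ∀ x y, x ∈ Bl N a α → y ∈ Bl N b β → ¬ N (x - y) ≤ α := fun x y hx hy hle =>
      hAB' x y hx hy (by rw [h.symm]; exact hle)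
    have gA : ∀ x x', N (x - x') ≤ α → g x' ∈ Bl N a α → g x ∈ Bl N a α := fun x x' hx hx' =>
      h.mem hx' (gcon x x') hx
    have gB : ∀ x x', N (x - x') ≤ β → g x' ∈ Bl N b β → g x ∈ Bl N b β := fun x x' hx hx' =>
      h.mem hx' (gcon x x') hx
    have gq1 : g q1 = q2 := h2.symm
    have gq4 : g q4 = q3 := by rw [h4, gG]
    have Gq2 : G q2 = q1 := by rw [h2, Gg]
    have Gq3 : G q3 = q4 := h4.symm
    cases e2 <;> cases e3 <;> cases e1 <;> simp only [cond_true, cond_false] at k1 k2 h3 k4 h5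
    · -- (F, F, F)
      have hq3A : q3 ∈ Bl N a α := by rw [h3]; exact FB _ k2
      have ef : f q3 = q2 := by rw [h3, fF]
      constructor
      · intro q hqB _
        exact gA q q4 ((h.dist_le hqB k4).trans hαβ) (by rw [gq4]; exact hq3A)
      · intro q hqB _ _
        have := Gcon (g q) q3
        rw [Gg, ef, Gq3, Gq2] at this
        exact h.mem k1 this ((h.dist_le hqB k4).trans hαβ)
    · -- (f, F, F)
      exfalso
      have hq3A : q3 ∈ Bl N a α := by rw [h3]; exact FB _ k2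
      have := gB q4 q1 (h.dist_le k4 k1) (by rw [gq1]; exact k2)
      rw [gq4] at this
      exact hAB _ hq3A this
    · -- (F, F, f)
      exfalso
      have hq3A : q3 ∈ Bl N a α := by rw [h3]; exact FB _ k2
      have := (gcon q1 q4).trans (h.dist_le k1 k4)
      rw [gq1, gq4] at this
      exact hAB' _ _ hq3A k2 this
    · -- (f, F, f)
      exfalso
      have hq5B : q5 ∈ Bl N b β := by rw [h5]; exact fA _ k4
      have hq6B := gB q5 q1 (h.dist_le hq5B k1) (by rw [gq1]; exact k2)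
      rw [← h6] at hq6B
      cases e4
      · exact hna ⟨rfl, rfl, rfl⟩
      · exact hAB _ k6 hq6B
    · -- (F, f, F)
      exfalso
      have hq5A : q5 ∈ Bl N a α := by rw [h5]; exact FB _ k4
      have hq6A := gA q5 q1 (h.dist_le hq5A k1) (by rw [gq1]; exact k2)
      rw [← h6] at hq6A
      cases e4
      · exact hAB _ hq6A k6
      · exact hna ⟨rfl, rfl, rfl⟩
    · -- (f, f, F)
      exfalso
      have hq3B : q3 ∈ Bl N b β := by rw [h3]; exact fA _ k2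
      have := (gcon q4 q1).trans ((h.dist_le k4 k1).trans hαβ)
      rw [gq1, gq4] at this
      exact hAB' _ _ k2 hq3B this
    · -- (F, f, f)
      exfalso
      have hq3B : q3 ∈ Bl N b β := by rw [h3]; exact fA _ k2
      have := gA q4 q1 (h.dist_le k4 k1) (by rw [gq1]; exact k2)
      rw [gq4] at this
      exact hAB _ this hq3B
    · -- (f, f, f)
      have hq3B : q3 ∈ Bl N b β := by rw [h3]; exact fA _ k2
      constructor
      · intro q hqB _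
        exact gA q q1 ((h.dist_le hqB k1).trans hαβ) (by rw [gq1]; exact k2)
      · intro q hqB _ _
        have := Gcon (g q) q2
        rw [Gg, ← h3, Gq3, Gq2] at this
        exact h.mem k4 this ((h.dist_le hqB k1).trans hαβ)

/-- A swap of two balls. -/
structure BS (N : ℚ → ℚ) (a α b β : ℚ) (f F : ℚ → ℚ) : Prop where
  fA : ∀ x, x ∈ Bl N a α → f x ∈ Bl N b β
  FB : ∀ x, x ∈ Bl N b β → F x ∈ Bl N a α
  Ff : ∀ x, F (f x) = x
  fF : ∀ x, f (F x) = x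
  con : β ≤ α → ∀ x y, N (f x - f y) ≤ N (x - y)
  con' : α ≤ β → ∀ x y, N (F x - F y) ≤ N (x - y)
  mon : ∀ x y x' y', N (x - y) ≤ N (x' - y') → N (f x - f y) ≤ N (f x' - f y')
  mon' : ∀ x y x' y', N (x - y) ≤ N (x' - y') → N (F x - F y) ≤ N (F x' - F y')

theorem BS.flip {N : ℚ → ℚ} {a α b β : ℚ} {f F : ℚ → ℚ} (S : BS N a α b β f F) :
    BS N b β a α F f :=
  ⟨S.FB, S.fA, S.fF, S.Ff, S.con', S.con, S.mon', S.mon⟩

theorem Win.base {A B C D : Set ℚ} {f F g G : ℚ → ℚ} {e1 e2 e3 e4 : Bool} {q1 q2 q3 q4 q5 q6 : ℚ}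
    (fA : ∀ x, x ∈ A → f x ∈ B) (GD : ∀ x, x ∈ D → G x ∈ C)
    (w : Win A B C D f F g G e1 e2 e3 e4 q1 q2 q3 q4 q5 q6) : ∃ x, x ∈ B ∧ x ∈ C := by
  obtain ⟨h1, k1, h2, k2, h3, k3, h4, k4, h5, k5, h6, k6⟩ := w
  cases e3
  · exact ⟨q4, k4, by rw [h4]; exact GD _ k3⟩
  · simp only [cond_true] at h5 k4
    exact ⟨q5, by rw [h5]; exact fA _ k4, k5⟩

theorem loc' {N : ℚ → ℚ} (h : Ult N) {a b c e α β γ δ : ℚ} {f F g G : ℚ → ℚ}
    {e1 e2 e3 e4 : Bool} {q1 q2 q3 q4 q5 q6 : ℚ} (S : BS N a α b β f F) (S' : BS N c γ e δ g G)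
    (hα : β ≤ α) (hγ : δ ≤ γ) (hna : NA e1 e2 e3 e4)
    (w : Win (Bl N a α) (Bl N b β) (Bl N c γ) (Bl N e δ) f F g G e1 e2 e3 e4 q1 q2 q3 q4 q5 q6) :
    (∀ q, q ∈ Bl N b β → q ∈ Bl N c γ → g q ∈ Bl N a α ∧ f (g q) ∈ Bl N e δ ∧
      G (f (g q)) ∈ Bl N a α ∧ f (G (f (g q))) ∈ Bl N c γ) ∧
      ∃ x, x ∈ Bl N b β ∧ x ∈ Bl N c γ :=
  ⟨loc h S.fA S.FB S'.fA S'.FB S.fF S'.Ff S'.fF hα (S.con hα) (S'.con hγ) S'.mon' hna w,
    w.base S.fA S'.FB⟩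

/-- Two full turns of the periodic itinerary exist locally. -/
theorem loc_ex {N : ℚ → ℚ} (h : Ult N) {a b c e α β γ δ : ℚ} {f F g G : ℚ → ℚ}
    {e1 e2 e3 e4 : Bool} {q1 q2 q3 q4 q5 q6 : ℚ} (S : BS N a α b β f F) (S' : BS N c γ e δ g G)
    (hna : NA e1 e2 e3 e4)
    (w : Win (Bl N a α) (Bl N b β) (Bl N c γ) (Bl N e δ) f F g G e1 e2 e3 e4 q1 q2 q3 q4 q5 q6) :
    ∃ q, q ∈ Bl N c γ ∧ g q ∈ Bl N a α ∧ f (g q) ∈ Bl N e δ ∧ G (f (g q)) ∈ Bl N a α ∧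
      f (G (f (g q))) ∈ Bl N c γ ∧ g (f (G (f (g q)))) ∈ Bl N a α ∧
      f (g (f (G (f (g q))))) ∈ Bl N e δ ∧ G (f (g (f (G (f (g q)))))) ∈ Bl N a α := by
  have wr := w.rev S.fA S.FB S'.fA S'.FB S.Ff S.fF S'.Ff S'.fF
  have fF := S.fF
  have Ff := S.Ff
  have gG := S'.fF
  have Gg := S'.Ff
  have fA := S.fA
  have FB := S.FB
  have gC := S'.fA
  have GD := S'.FB
  rcases le_total β α with hα | hα <;> rcases le_total δ γ with hγ | hγ
  · obtain ⟨H, q, hqB, hqC⟩ := loc' h S S' hα hγ hna w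
    obtain ⟨s1, s2, s3, s4⟩ := H q hqB hqC
    obtain ⟨t1, t2, t3, t4⟩ := H _ (fA _ s3) s4
    exact ⟨q, hqC, s1, s2, s3, s4, t1, t2, t3⟩
  · obtain ⟨H, q, hqB, hqD⟩ := loc' h S S'.flip hα hγ hna.rev wr
    obtain ⟨s1, s2, s3, s4⟩ := H q hqB hqD
    obtain ⟨t1, t2, t3, t4⟩ := H _ (fA _ s3) s4
    obtain ⟨r1, r2, r3, r4⟩ := H _ (fA _ t3) t4
    exact ⟨f (G q), s2, s3, s4, t1, t2, t3, t4, r1⟩
  · obtain ⟨H, q, hqA, hqC⟩ := loc' h S.flip S' hα hγ hna.not w.flip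
    obtain ⟨s1, s2, s3, s4⟩ := H q hqA hqC
    obtain ⟨t1, t2, t3, t4⟩ := H _ (FB _ s3) s4
    refine ⟨G (F (g (F (G (F (g q)))))), ?_, ?_, ?_, ?_, ?_, ?_, ?_, ?_⟩ <;>
      (try simp only [fF, gG, Gg])
    · exact GD _ t2
    · exact FB _ t1
    · exact gC _ s4
    · exact FB _ s3
    · exact GD _ s2
    · exact FB _ s1
    · exact gC _ hqC
    · exact hqA
  · obtain ⟨H, q, hqA, hqD⟩ := loc' h S.flip S'.flip hα hγ hna.rev.not wr.flip
    obtain ⟨s1, s2, s3, s4⟩ := H q hqA hqD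
    obtain ⟨t1, t2, t3, t4⟩ := H _ (FB _ s3) s4
    refine ⟨G (F (g (F (G (F (g (F (G q)))))))), ?_, ?_, ?_, ?_, ?_, ?_, ?_, ?_⟩ <;>
      (try simp only [fF, gG, Gg])
    · exact GD _ t4
    · exact FB _ t3
    · exact gC _ t2
    · exact FB _ t1
    · exact GD _ s4
    · exact FB _ s3
    · exact gC _ s2
    · exact FB _ s1

end Pool.Agent.X267.CT
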