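import Mathlib
import Pool.Agent.X267.CT.L1
import Pool.Agent.X267.CT.LG
import Pool.Agent.X267.CT.Loc

set_option autoImplicit false

/-!
# Affine swaps of two residue classes
-/

namespace Pool.Agent.X267.CT

/-- Two residue classes `a (m)` and `b (n)`. -/
structure Dat where
  a : ℤ
  m : ℤ
  b : ℤ
  n : ℤ
  hm : 0 < m
  hn : 0 < n

namespace Dat

/-- The two classes exchanged. -/
def swap (T : Dat) : Dat := ⟨T.b, T.n, T.a, T.m, T.hn, T.hm⟩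

/-- The coordinate with respect to the first class. -/
def co (T : Dat) (x : ℚ) : ℚ := (x - T.a) / T.m

/-- The affine map taking the first class to the second. -/
def f (T : Dat) (x : ℚ) : ℚ := T.co x * T.n + T.b

/-- Membership in the first class. -/
def In (T : Dat) (x : ℚ) : Prop := ∃ k : ℤ, T.co x = k

/-- A permutation which on the first class is the affine map to the second. -/
def Cmp (T : Dat) (σ : Equiv.Perm ℤ) : Prop := ∀ x : ℤ, T.In x → ((σ x : ℤ) : ℚ) = T.f x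

theorem mq (T : Dat) : (0 : ℚ) < T.m := by exact_mod_cast T.hm
theorem nq (T : Dat) : (0 : ℚ) < T.n := by exact_mod_cast T.hn

theorem swap_swap (T : Dat) : T.swap.swap = T := rfl

theorem swap_co_f (T : Dat) (x : ℚ) : T.swap.co (T.f x) = T.co x := by
  have h := T.nq.ne'
  simp only [swap, co, f]
  field_simp
  ring

theorem swap_f_f (T : Dat) (x : ℚ) : T.swap.f (T.f x) = x := by
  have h := T.mq.ne'
  have : T.swap.f (T.f x) = T.swap.co (T.f x) * T.m + T.a := rfl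
  rw [this, swap_co_f]
  simp only [co]
  field_simp
  ring

theorem f_swap_f (T : Dat) (x : ℚ) : T.f (T.swap.f x) = x := T.swap.swap_f_f x

theorem in_f (T : Dat) {x : ℚ} (h : T.In x) : T.swap.In (T.f x) := by
  unfold In at *
  rw [swap_co_f]; exact h

theorem int_of_in (T : Dat) {x : ℚ} (h : T.In x) : ∃ y : ℤ, (y : ℚ) = x := by
  obtain ⟨k, hk⟩ := h
  refine ⟨k * T.m + T.a, ?_⟩
  have h' := T.mq.ne'
  push_cast
  rw [← hk]
  simp only [co]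
  field_simp
  ring

theorem aff_co (T : Dat) : Aff T.co := by
  have h' := T.mq
  refine ⟨1 / T.m, -T.a / T.m, by positivity, fun q => ?_⟩
  simp only [co]
  field_simp
  ring

theorem aff_f (T : Dat) : Aff T.f := by
  have h' := T.mq
  have h'' := T.nq
  refine ⟨T.n / T.m, T.b - T.a / T.m * T.n, by positivity, fun q => ?_⟩
  simp only [f, co]
  field_simp
  ring

end Dat

theorem lin_of_aff {h : ℚ → ℚ} (hh : Aff h) : Lin {x | ∃ k : ℤ, h x = k} := by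
  obtain ⟨c, d, _, hcd⟩ := hh
  rintro x δ ⟨k₁, h₁⟩ ⟨k₂, h₂⟩ j
  refine ⟨k₁ + j * (k₂ - k₁), ?_⟩
  rw [hcd] at *
  push_cast
  have : c * (x + j * δ) + d = (c * x + d) + j * ((c * (x + δ) + d) - (c * x + d)) := by ring
  rw [this, h₁, h₂]

theorem Lin.inter {W W' : Set ℚ} (h : Lin W) (h' : Lin W') : Lin (W ∩ W') :=
  fun x δ hx hxδ k => ⟨h x δ hx.1 hxδ.1 k, h' x δ hx.2 hxδ.2 k⟩

theorem lin_in (T : Dat) {h : ℚ → ℚ} (hh : Aff h) : Lin {x | T.In (h x)} :=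
  lin_of_aff (T.aff_co.comp hh)

theorem aff_id : Aff (fun x => x) := ⟨1, 0, one_pos, fun q => by ring⟩

/-- A square of root length two. -/
theorem root2 (T1 T2 : Dat) (σ1 σ2 : Equiv.Perm ℤ) (h1 : T1.Cmp σ1) (h2 : T2.Cmp σ2) (x : ℚ)
    (a1 : T1.In x) (a2 : T2.In (T1.f x))
    (b1 : T1.In (T2.f (T1.f x))) (b2 : T2.In (T1.f (T2.f (T1.f x))))
    (hne : T2.f (T1.f x) ≠ x) (n : ℕ) (hn : 0 < n) : (σ2 * σ1) ^ n ≠ 1 := by
  have hA : Aff (fun x => T2.f (T1.f x)) := T2.aff_f.comp T1.aff_f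
  obtain ⟨c, d, hc, hcd⟩ := hA
  refine inf_of (σ2 * σ1) (fun x => T2.f (T1.f x)) c d hc hcd
    ({x | T1.In x} ∩ {x | T2.In (T1.f x)})
    (Lin.inter (lin_in T1 aff_id) (lin_in T2 T1.aff_f)) ?_ ?_ x ⟨a1, a2⟩ ⟨b1, b2⟩ hne n hn
  · rintro y ⟨hy1, hy2⟩
    have e1 := h1 y hy1
    have hy2' : T2.In (T1.f y) := hy2
    rw [← e1] at hy2'
    have e2 := h2 _ hy2'
    change ((σ2 (σ1 y) : ℤ) : ℚ) = _
    rw [e2, e1]
  · rintro y ⟨hy1, _⟩
    exact T1.int_of_in hy1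

/-- A square of root length four. -/
theorem root4 (T1 T2 T3 T4 : Dat) (σ1 σ2 σ3 σ4 : Equiv.Perm ℤ) (h1 : T1.Cmp σ1) (h2 : T2.Cmp σ2)
    (h3 : T3.Cmp σ3) (h4 : T4.Cmp σ4) (x : ℚ)
    (a1 : T1.In x) (a2 : T2.In (T1.f x)) (a3 : T3.In (T2.f (T1.f x)))
    (a4 : T4.In (T3.f (T2.f (T1.f x))))
    (y : ℚ) (hy : y = T4.f (T3.f (T2.f (T1.f x))))
    (b1 : T1.In y) (b2 : T2.In (T1.f y)) (b3 : T3.In (T2.f (T1.f y)))
    (b4 : T4.In (T3.f (T2.f (T1.f y))))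
    (hne : y ≠ x) (n : ℕ) (hn : 0 < n) : (σ4 * σ3 * σ2 * σ1) ^ n ≠ 1 := by
  have hA2 : Aff (fun x => T2.f (T1.f x)) := T2.aff_f.comp T1.aff_f
  have hA3 : Aff (fun x => T3.f (T2.f (T1.f x))) := T3.aff_f.comp hA2
  have hA : Aff (fun x => T4.f (T3.f (T2.f (T1.f x)))) := T4.aff_f.comp hA3
  obtain ⟨c, d, hc, hcd⟩ := hA
  subst hy
  refine inf_of (σ4 * σ3 * σ2 * σ1) (fun x => T4.f (T3.f (T2.f (T1.f x)))) c d hc hcd
    (({x | T1.In x} ∩ {x | T2.In (T1.f x)}) ∩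
      ({x | T3.In (T2.f (T1.f x))} ∩ {x | T4.In (T3.f (T2.f (T1.f x)))}))
    (Lin.inter (Lin.inter (lin_in T1 aff_id) (lin_in T2 T1.aff_f))
      (Lin.inter (lin_in T3 hA2) (lin_in T4 hA3))) ?_ ?_ x ⟨⟨a1, a2⟩, ⟨a3, a4⟩⟩
      ⟨⟨b1, b2⟩, ⟨b3, b4⟩⟩ hne n hn
  · rintro y ⟨⟨hy1, hy2⟩, hy3, hy4⟩
    have e1 := h1 y hy1
    have hy2' : T2.In (T1.f y) := hy2
    rw [← e1] at hy2'
    have e2 := h2 _ hy2'
    have hy3' : T3.In (T2.f (T1.f y)) := hy3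
    rw [← e1, ← e2] at hy3'
    have e3 := h3 _ hy3'
    have hy4' : T4.In (T3.f (T2.f (T1.f y))) := hy4
    rw [← e1, ← e2, ← e3] at hy4'
    have e4 := h4 _ hy4'
    change ((σ4 (σ3 (σ2 (σ1 y))) : ℤ) : ℚ) = _
    rw [e4, e3, e2, e1]
  · rintro y ⟨⟨hy1, _⟩, _⟩
    exact T1.int_of_in hy1

end Pool.Agent.X267.CT
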