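import Mathlib
import Pool.Agent.X267.CT.Dat

set_option autoImplicit false

/-!
# A window which is not alternating forces infinite order
-/

namespace Pool.Agent.X267.CT

theorem ult_padic (p : ℕ) [hp : Fact p.Prime] : Ult (padicNorm p) :=
  ⟨fun x => padicNorm.neg x, fun _ _ => padicNorm.nonarchimedean⟩

theorem pos_padic (p : ℕ) [hp : Fact p.Prime] {m : ℤ} (hm : 0 < m) : 0 < padicNorm p (m : ℚ) := by
  have h1 : (m : ℚ) ≠ 0 := by exact_mod_cast hm.ne'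
  exact lt_of_le_of_ne (padicNorm.nonneg _) (Ne.symm (padicNorm.nonzero h1))

theorem mem_Bl (T : Dat) (p : ℕ) [hp : Fact p.Prime] (x : ℚ) :
    x ∈ Bl (padicNorm p) T.a (padicNorm p T.m) ↔ padicNorm p (T.co x) ≤ 1 := by
  unfold Dat.co Bl
  rw [padicNorm.div, div_le_one (pos_padic p T.hm)]
  rfl

theorem dist_f (T : Dat) (p : ℕ) [hp : Fact p.Prime] (x y : ℚ) :
    padicNorm p (T.f x - T.f y) = padicNorm p (x - y) * (padicNorm p T.n / padicNorm p T.m) := by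
  rw [← padicNorm.div, ← padicNorm.mul]
  congr 1
  simp only [Dat.f, Dat.co]
  ring

theorem bs_padic (T : Dat) (p : ℕ) [hp : Fact p.Prime] :
    BS (padicNorm p) T.a (padicNorm p T.m) T.b (padicNorm p T.n) T.f T.swap.f := by
  have hm := pos_padic p T.hm
  have hn := pos_padic p T.hn
  have F : ∀ S : Dat, ∀ x, x ∈ Bl (padicNorm p) S.a (padicNorm p S.m) →
      S.f x ∈ Bl (padicNorm p) S.b (padicNorm p S.n) := by
    intro S x hx
    have := (mem_Bl S.swap p (S.f x)).mpr (by rw [S.swap_co_f]; exact (mem_Bl S p x).mp hx)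
    exact this
  refine ⟨F T, F T.swap, T.swap_f_f, T.f_swap_f, ?_, ?_, ?_, ?_⟩
  · intro h x y
    rw [dist_f]
    have : padicNorm p (T.n : ℚ) / padicNorm p (T.m : ℚ) ≤ 1 := (div_le_one hm).mpr h
    exact mul_le_of_le_one_right (padicNorm.nonneg _) this
  · intro h x y
    rw [dist_f]
    have : padicNorm p (T.m : ℚ) / padicNorm p (T.n : ℚ) ≤ 1 := (div_le_one hn).mpr h
    exact mul_le_of_le_one_right (padicNorm.nonneg _) this
  · intro x y x' y' h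
    rw [dist_f, dist_f]
    exact mul_le_mul_of_nonneg_right h (by positivity)
  · intro x y x' y' h
    rw [dist_f, dist_f]
    exact mul_le_mul_of_nonneg_right h (div_nonneg hm.le hn.le)

theorem Win.mono {A B C D A' B' C' D' : Set ℚ} {f F g G : ℚ → ℚ} {e1 e2 e3 e4 : Bool}
    {q1 q2 q3 q4 q5 q6 : ℚ} (hA : A ⊆ A') (hB : B ⊆ B') (hC : C ⊆ C') (hD : D ⊆ D')
    (w : Win A B C D f F g G e1 e2 e3 e4 q1 q2 q3 q4 q5 q6) :
    Win A' B' C' D' f F g G e1 e2 e3 e4 q1 q2 q3 q4 q5 q6 := by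
  obtain ⟨h1, k1, h2, k2, h3, k3, h4, k4, h5, k5, h6, k6⟩ := w
  have hAB : ∀ (e : Bool) (q : ℚ), (q ∈ bif e then A else B) → q ∈ bif e then A' else B' := by
    intro e q hq
    cases e
    · exact hB hq
    · exact hA hq
  have hBA : ∀ (e : Bool) (q : ℚ), (q ∈ bif e then B else A) → q ∈ bif e then B' else A' := by
    intro e q hq
    cases e
    · exact hA hq
    · exact hB hq
  exact ⟨hC h1, hBA _ _ k1, h2, hAB _ _ k2, h3, hD k3, h4, hAB _ _ k4, h5, hC k5, h6, hAB _ _ k6⟩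

theorem in_sub (T : Dat) (p : ℕ) [hp : Fact p.Prime] :
    {x | T.In x} ⊆ Bl (padicNorm p) T.a (padicNorm p T.m) := by
  rintro x ⟨k, hk⟩
  rw [mem_Bl, hk]
  exact padicNorm.of_int k

theorem LG8 (l1 l2 l3 l4 l5 l6 l7 l8 : ℚ → ℚ) (h1 : Aff l1) (h2 : Aff l2) (h3 : Aff l3)
    (h4 : Aff l4) (h5 : Aff l5) (h6 : Aff l6) (h7 : Aff l7) (h8 : Aff l8)
    (h : ∀ p : ℕ, p.Prime → ∃ q : ℚ, padicNorm p (l1 q) ≤ 1 ∧ padicNorm p (l2 q) ≤ 1 ∧
      padicNorm p (l3 q) ≤ 1 ∧ padicNorm p (l4 q) ≤ 1 ∧ padicNorm p (l5 q) ≤ 1 ∧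
      padicNorm p (l6 q) ≤ 1 ∧ padicNorm p (l7 q) ≤ 1 ∧ padicNorm p (l8 q) ≤ 1) :
    ∃ q q' : ℚ, q ≠ q' ∧ ∀ x, (x = q ∨ x = q') → (∃ k : ℤ, l1 x = k) ∧ (∃ k : ℤ, l2 x = k) ∧
      (∃ k : ℤ, l3 x = k) ∧ (∃ k : ℤ, l4 x = k) ∧ (∃ k : ℤ, l5 x = k) ∧ (∃ k : ℤ, l6 x = k) ∧
      (∃ k : ℤ, l7 x = k) ∧ (∃ k : ℤ, l8 x = k) := by
  obtain ⟨q, q', hne, hq, hq'⟩ := LG (ι := Fin 8) ![l1, l2, l3, l4, l5, l6, l7, l8]
    (by
      intro i
      fin_cases i
      · exact h1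
      · exact h2
      · exact h3
      · exact h4
      · exact h5
      · exact h6
      · exact h7
      · exact h8) 0
    (by
      intro p hp
      obtain ⟨q, a1, a2, a3, a4, a5, a6, a7, a8⟩ := h p hp
      refine ⟨q, fun i => ?_⟩
      fin_cases i
      · exact a1
      · exact a2
      · exact a3
      · exact a4
      · exact a5
      · exact a6
      · exact a7
      · exact a8)
  refine ⟨q, q', hne, ?_⟩
  rintro x (rfl | rfl)
  · exact ⟨hq 0, hq 1, hq 2, hq 3, hq 4, hq 5, hq 6, hq 7⟩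
  · exact ⟨hq' 0, hq' 1, hq' 2, hq' 3, hq' 4, hq' 5, hq' 6, hq' 7⟩

/-- The turn `f G f g` is not the identity. -/
theorem turn_ne (T U : Dat) (hd : ∀ x, T.In x → ¬ T.swap.In x) {q q' : ℚ} (hne : q ≠ q')
    (h : T.f (U.swap.f (T.f (U.f q))) = q) (h' : T.f (U.swap.f (T.f (U.f q'))) = q') : False := by
  obtain ⟨l, f0, hl, hf⟩ := T.aff_f
  obtain ⟨mu, g0, hmu, hg⟩ := U.aff_f
  have hG : ∀ y, U.swap.f y = (y - g0) / mu := by
    intro y
    have e : U.f ((y - g0) / mu) = y := by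
      rw [hg]; field_simp; ring
    have := U.swap_f_f ((y - g0) / mu)
    rwa [e] at this
  have hH : ∀ x, T.f (U.swap.f (T.f (U.f x))) = l ^ 2 * x + (l * (l * g0 + f0 - g0) / mu + f0) := by
    intro x
    rw [hf, hG, hf, hg]
    field_simp
    ring
  rw [hH] at h h'
  have h1 : (l ^ 2 - 1) * (q - q') = 0 := by linear_combination h - h'
  have h2 : l ^ 2 - 1 = 0 := by
    rcases mul_eq_zero.mp h1 with h2 | h2
    · exact h2
    · exact absurd (sub_eq_zero.mp h2) hne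
  have hl1 : l = 1 := by nlinarith
  subst hl1
  have h3 : f0 * (1 + 1 / mu) = 0 := by
    have : (1 : ℚ) ^ 2 * q + (1 * (1 * g0 + f0 - g0) / mu + f0) = q + f0 * (1 + 1 / mu) := by
      field_simp
      ring
    rw [this] at h
    linarith
  have h4 : f0 = 0 := by
    rcases mul_eq_zero.mp h3 with h4 | h4
    · exact h4
    · have : 0 < 1 + 1 / mu := by positivity
      exact absurd h4 this.ne'
  have ha : T.In T.a := ⟨0, by simp [Dat.co]⟩
  have hb := T.in_f ha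
  rw [hf, h4] at hb
  apply hd _ ha
  simpa using hb

/-- The main consequence of the local analysis. -/
theorem winP (T U : Dat) (σ σ' : Equiv.Perm ℤ) (hσ : T.Cmp σ)
    (hτ : U.Cmp σ') (hτs : U.swap.Cmp σ') (hd : ∀ x, T.In x → ¬ T.swap.In x)
    {e1 e2 e3 e4 : Bool} (hna : NA e1 e2 e3 e4) {q1 q2 q3 q4 q5 q6 : ℚ}
    (w : Win {x | T.In x} {x | T.swap.In x} {x | U.In x} {x | U.swap.In x} T.f T.swap.f U.f
      U.swap.f e1 e2 e3 e4 q1 q2 q3 q4 q5 q6) (n : ℕ) (hn : 0 < n) : (σ * σ') ^ n ≠ 1 := by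
  have A1 : Aff U.f := U.aff_f
  have A2 : Aff (fun x => T.f (U.f x)) := T.aff_f.comp A1
  have A3 : Aff (fun x => U.swap.f (T.f (U.f x))) := U.swap.aff_f.comp A2
  have A4 : Aff (fun x => T.f (U.swap.f (T.f (U.f x)))) := T.aff_f.comp A3
  have A5 : Aff (fun x => U.f (T.f (U.swap.f (T.f (U.f x))))) := U.aff_f.comp A4
  have A6 : Aff (fun x => T.f (U.f (T.f (U.swap.f (T.f (U.f x)))))) := T.aff_f.comp A5
  have A7 : Aff (fun x => U.swap.f (T.f (U.f (T.f (U.swap.f (T.f (U.f x))))))) :=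
    U.swap.aff_f.comp A6
  obtain ⟨q, q', hne, hq⟩ := LG8 _ _ _ _ _ _ _ _ U.aff_co (T.aff_co.comp A1)
    (U.swap.aff_co.comp A2) (T.aff_co.comp A3) (U.aff_co.comp A4) (T.aff_co.comp A5)
    (U.swap.aff_co.comp A6) (T.aff_co.comp A7) (by
      intro p hp
      have : Fact p.Prime := ⟨hp⟩
      obtain ⟨q, c1, c2, c3, c4, c5, c6, c7, c8⟩ := loc_ex (ult_padic p) (bs_padic T p)
        (bs_padic U p) hna (w.mono (in_sub T p) (in_sub T.swap p) (in_sub U p) (in_sub U.swap p))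
      exact ⟨q, (mem_Bl U p _).mp c1, (mem_Bl T p _).mp c2, (mem_Bl U.swap p _).mp c3,
        (mem_Bl T p _).mp c4, (mem_Bl U p _).mp c5, (mem_Bl T p _).mp c6,
        (mem_Bl U.swap p _).mp c7, (mem_Bl T p _).mp c8⟩)
  obtain ⟨x, hx, hxne⟩ : ∃ x, (x = q ∨ x = q') ∧ T.f (U.swap.f (T.f (U.f x))) ≠ x := by
    by_contra hcon
    push Not at hcon
    exact turn_ne T U hd hne (hcon q (Or.inl rfl)) (hcon q' (Or.inr rfl))
  obtain ⟨d1, d2, d3, d4, d5, d6, d7, d8⟩ := hq x hx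
  have key := root4 U T U.swap T σ' σ σ' σ hτ hσ hτs hσ x d1 d2 d3 d4 _ rfl d5 d6 d7 d8 hxne n hn
  intro h1
  apply key
  have e : σ * σ' * σ * σ' = (σ * σ') ^ 2 := by rw [pow_two]; group
  rw [e, ← pow_mul, mul_comm, pow_mul, h1, one_pow]

end Pool.Agent.X267.CT
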