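import Mathlib
import Pool.Agent.X267.CT.WinP

set_option autoImplicit false

/-!
# The orbits of a product of two class transpositions of finite order
-/

namespace Pool.Agent.X267.CT

/-- `T` or `T.swap`. -/
def Dat.sg (T : Dat) (s : Bool) : Dat := bif s then T else T.swap

theorem Dat.sg_swap (T : Dat) (s : Bool) : (T.sg s).swap = T.sg (!s) := by
  cases s <;> rfl

/-- `τ` exchanges the two disjoint classes of `T` and fixes all other integers. -/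
structure IsT (T : Dat) (τ : Equiv.Perm ℤ) : Prop where
  c : T.Cmp τ
  c' : T.swap.Cmp τ
  fix : ∀ x : ℤ, ¬ T.In x → ¬ T.swap.In x → τ x = x
  dis : ∀ x : ℚ, T.In x → ¬ T.swap.In x

theorem IsT.cmp {T : Dat} {τ : Equiv.Perm ℤ} (h : IsT T τ) (s : Bool) : (T.sg s).Cmp τ := by
  cases s
  · exact h.c'
  · exact h.c

theorem IsT.step {T : Dat} {τ : Equiv.Perm ℤ} (h : IsT T τ) (x : ℤ) :
    τ x = x ∨ ∃ s : Bool, (T.sg s).In x ∧ ((τ x : ℤ) : ℚ) = (T.sg s).f x := by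
  by_cases h1 : T.In x
  · exact Or.inr ⟨true, h1, h.c x h1⟩
  · by_cases h2 : T.swap.In x
    · exact Or.inr ⟨false, h2, h.c' x h2⟩
    · exact Or.inl (h.fix x h1 h2)

theorem IsT.invol {T : Dat} {τ : Equiv.Perm ℤ} (h : IsT T τ) (x : ℤ) : τ (τ x) = x := by
  rcases h.step x with h1 | ⟨s, hs, hf⟩
  · rw [h1, h1]
  · have h2 : ((T.sg s).swap).In ((τ x : ℤ) : ℚ) := by rw [hf]; exact (T.sg s).in_f hs
    rw [Dat.sg_swap] at h2
    have h3 := h.cmp (!s) (τ x) h2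
    rw [hf, ← Dat.sg_swap, Dat.swap_f_f] at h3
    exact_mod_cast h3

/-- The path of `x` under alternating application of the two permutations. -/
def path (σ : Bool → Equiv.Perm ℤ) (x : ℤ) : ℕ → ℤ
  | 0 => x
  | j + 1 => σ (Nat.bodd j) (path σ x j)

/-- The Boolean form of the combinatorial statement. -/
def combB (s0 s1 s2 s3 s4 s5 s6 s7 s8 s9 : Bool) : Bool :=
  (s0 == s2 && s1 == s3) || (s1 == s3 && s2 == s4) || (s2 == s4 && s3 == s5) ||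
    (s3 == s5 && s4 == s6) || (s4 == s6 && s5 == s7) || (s5 == s7 && s6 == s8) ||
    (s6 == s8 && s7 == s9) || (s0 == s4 && s1 == s5 && s2 == s6 && s3 == s7) ||
    (s3 == !s1 && s5 == s1 && !(s0 == !s2 && s2 == !s4 && s4 == !s6)) ||
    (s4 == !s2 && s6 == s2 && !(s1 == !s3 && s3 == !s5 && s5 == !s7)) ||
    (s5 == !s3 && s7 == s3 && !(s2 == !s4 && s4 == !s6 && s6 == !s8)) ||
    (s6 == !s4 && s8 == s4 && !(s3 == !s5 && s5 == !s7 && s7 == !s9))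

theorem combB_true : ∀ s0 s1 s2 s3 s4 s5 s6 s7 s8 s9 : Bool,
    combB s0 s1 s2 s3 s4 s5 s6 s7 s8 s9 = true := by
  decide

theorem na_of : ∀ a b c d : Bool, (!(a == !b && b == !c && c == !d)) = true → NA a b c d := by
  unfold NA
  decide

/-- All the data. -/
structure Pair (D : Bool → Dat) (σ : Bool → Equiv.Perm ℤ) : Prop where
  ist : ∀ t, IsT (D t) (σ t)
  fin : ∃ n : ℕ, 0 < n ∧ ∀ t, (σ t * σ (!t)) ^ n = 1

/-- The `j`-th step of the path is taken with sign `s`. -/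
def St (D : Bool → Dat) (σ : Bool → Equiv.Perm ℤ) (x : ℤ) (j : ℕ) (s : Bool) : Prop :=
  ((D (Nat.bodd j)).sg s).In (path σ x j) ∧
    ((path σ x (j + 1) : ℤ) : ℚ) = ((D (Nat.bodd j)).sg s).f (path σ x j)

theorem St.next {D : Bool → Dat} {σ : Bool → Equiv.Perm ℤ} {x : ℤ} {j : ℕ} {s : Bool}
    (h : St D σ x j s) : ((D (Nat.bodd j)).sg (!s)).In (path σ x (j + 1)) := by
  rw [h.2, ← Dat.sg_swap]
  exact Dat.in_f _ h.1

theorem sq2 {D : Bool → Dat} {σ : Bool → Equiv.Perm ℤ} (P : Pair D σ) (x : ℤ) (i : ℕ)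
    (s s' : Bool) (h0 : St D σ x i s) (h1 : St D σ x (i + 1) s') (h2 : St D σ x (i + 2) s)
    (h3 : St D σ x (i + 3) s') : path σ x (i + 2) = path σ x i := by
  by_contra hne
  obtain ⟨n, hn, hP⟩ := P.fin
  have b1 : Nat.bodd (i + 1) = !Nat.bodd i := Nat.bodd_succ i
  have b2 : Nat.bodd (i + 2) = Nat.bodd i := by rw [Nat.bodd_succ, b1, Bool.not_not]
  have b3 : Nat.bodd (i + 3) = !Nat.bodd i := by rw [Nat.bodd_succ, b2]
  unfold St at h0 h1 h2 h3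
  rw [b1] at h1
  rw [b2] at h2
  rw [b3] at h3
  refine root2 ((D (Nat.bodd i)).sg s) ((D (!Nat.bodd i)).sg s') (σ (Nat.bodd i))
    (σ (!Nat.bodd i)) ((P.ist _).cmp s) ((P.ist _).cmp s') (path σ x i) h0.1 ?_ ?_ ?_ ?_ n hn ?_
  · rw [← h0.2]; exact h1.1
  · rw [← h0.2, ← h1.2]; exact h2.1
  · rw [← h0.2, ← h1.2, ← h2.2]; exact h3.1
  · rw [← h0.2, ← h1.2]
    exact_mod_cast hne
  · have := hP (!Nat.bodd i)
    rwa [Bool.not_not] at this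

theorem sq4 {D : Bool → Dat} {σ : Bool → Equiv.Perm ℤ} (P : Pair D σ) (x : ℤ) (i : ℕ)
    (s0 s1 s2 s3 : Bool) (h0 : St D σ x i s0) (h1 : St D σ x (i + 1) s1)
    (h2 : St D σ x (i + 2) s2) (h3 : St D σ x (i + 3) s3) (h4 : St D σ x (i + 4) s0)
    (h5 : St D σ x (i + 5) s1) (h6 : St D σ x (i + 6) s2) (h7 : St D σ x (i + 7) s3) :
    path σ x (i + 4) = path σ x i := by
  by_contra hne
  obtain ⟨n, hn, hP⟩ := P.fin
  have b1 : Nat.bodd (i + 1) = !Nat.bodd i := Nat.bodd_succ i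
  have b2 : Nat.bodd (i + 2) = Nat.bodd i := by rw [Nat.bodd_succ, b1, Bool.not_not]
  have b3 : Nat.bodd (i + 3) = !Nat.bodd i := by rw [Nat.bodd_succ, b2]
  have b4 : Nat.bodd (i + 4) = Nat.bodd i := by rw [Nat.bodd_succ, b3, Bool.not_not]
  have b5 : Nat.bodd (i + 5) = !Nat.bodd i := by rw [Nat.bodd_succ, b4]
  have b6 : Nat.bodd (i + 6) = Nat.bodd i := by rw [Nat.bodd_succ, b5, Bool.not_not]
  have b7 : Nat.bodd (i + 7) = !Nat.bodd i := by rw [Nat.bodd_succ, b6]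
  unfold St at h0 h1 h2 h3 h4 h5 h6 h7
  rw [b1] at h1
  rw [b2] at h2
  rw [b3] at h3
  rw [b4] at h4
  rw [b5] at h5
  rw [b6] at h6
  rw [b7] at h7
  refine root4 ((D (Nat.bodd i)).sg s0) ((D (!Nat.bodd i)).sg s1) ((D (Nat.bodd i)).sg s2)
    ((D (!Nat.bodd i)).sg s3) (σ (Nat.bodd i)) (σ (!Nat.bodd i)) (σ (Nat.bodd i))
    (σ (!Nat.bodd i)) ((P.ist _).cmp _) ((P.ist _).cmp _)
    ((P.ist _).cmp _) ((P.ist _).cmp _) (path σ x i) h0.1 ?_ ?_ ?_ (path σ x (i + 4)) ?_ h4.1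
    ?_ ?_ ?_ ?_ n hn ?_
  · rw [← h0.2]; exact h1.1
  · rw [← h0.2, ← h1.2]; exact h2.1
  · rw [← h0.2, ← h1.2, ← h2.2]; exact h3.1
  · rw [← h0.2, ← h1.2, ← h2.2]; exact h3.2
  · rw [← h4.2]; exact h5.1
  · rw [← h4.2, ← h5.2]; exact h6.1
  · rw [← h4.2, ← h5.2, ← h6.2]; exact h7.1
  · exact_mod_cast hne
  · have h1 := hP (!Nat.bodd i)
    rw [Bool.not_not] at h1
    have e : σ (!Nat.bodd i) * σ (Nat.bodd i) * σ (!Nat.bodd i) * σ (Nat.bodd i) =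
        (σ (!Nat.bodd i) * σ (Nat.bodd i)) ^ 2 := by
      rw [pow_two]; group
    rw [e, ← pow_mul, mul_comm, pow_mul, h1, one_pow]

theorem win {D : Bool → Dat} {σ : Bool → Equiv.Perm ℤ} (P : Pair D σ) (x : ℤ) (i : ℕ)
    (s0 s1 s2 s4 s6 : Bool) (h0 : St D σ x i s0) (h1 : St D σ x (i + 1) s1)
    (h2 : St D σ x (i + 2) s2) (h3 : St D σ x (i + 3) (!s1)) (h4 : St D σ x (i + 4) s4)
    (h5 : St D σ x (i + 5) s1) (h6 : St D σ x (i + 6) s6) (hna : NA s0 s2 s4 s6) : False := by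
  obtain ⟨n, hn, hP⟩ := P.fin
  have n0 := h0.next
  have b1 : Nat.bodd (i + 1) = !Nat.bodd i := Nat.bodd_succ i
  have b2 : Nat.bodd (i + 2) = Nat.bodd i := by rw [Nat.bodd_succ, b1, Bool.not_not]
  have b3 : Nat.bodd (i + 3) = !Nat.bodd i := by rw [Nat.bodd_succ, b2]
  have b4 : Nat.bodd (i + 4) = Nat.bodd i := by rw [Nat.bodd_succ, b3, Bool.not_not]
  have b5 : Nat.bodd (i + 5) = !Nat.bodd i := by rw [Nat.bodd_succ, b4]
  have b6 : Nat.bodd (i + 6) = Nat.bodd i := by rw [Nat.bodd_succ, b5, Bool.not_not]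
  unfold St at h0 h1 h2 h3 h4 h5 h6
  rw [b1] at h1
  rw [b2] at h2
  rw [b3] at h3
  rw [b4] at h4
  rw [b5] at h5
  rw [b6] at h6
  refine winP (D (Nat.bodd i)) ((D (!Nat.bodd i)).sg s1) (σ (Nat.bodd i)) (σ (!Nat.bodd i))
    (P.ist _).c ((P.ist _).cmp _) ?_ (P.ist _).dis hna (q1 := path σ x (i + 1))
    (q2 := path σ x (i + 2)) (q3 := path σ x (i + 3)) (q4 := path σ x (i + 4))
    (q5 := path σ x (i + 5)) (q6 := path σ x (i + 6)) ?_ n hn (hP _)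
  · rw [Dat.sg_swap]; exact (P.ist _).cmp _
  · rw [Dat.sg_swap]
    refine ⟨h1.1, ?_, h1.2, ?_, ?_, h3.1, h3.2, ?_, ?_, h5.1, h5.2, ?_⟩
    · cases s0
      · exact n0
      · exact n0
    · cases s2
      · exact h2.1
      · exact h2.1
    · cases s2
      · exact h2.2
      · exact h2.2
    · cases s4
      · exact h4.1
      · exact h4.1
    · cases s4
      · exact h4.2
      · exact h4.2
    · cases s6
      · exact h6.1
      · exact h6.1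

theorem trich {D : Bool → Dat} {σ : Bool → Equiv.Perm ℤ} (P : Pair D σ) (x : ℤ) :
    (∃ i, path σ x (i + 2) = path σ x i) ∨ path σ x 4 = path σ x 0 ∨
      ∃ m < 10, path σ x (m + 1) = path σ x m := by
  by_cases hm : ∃ m < 10, path σ x (m + 1) = path σ x m
  · exact Or.inr (Or.inr hm)
  push Not at hm
  have hs : ∀ j, ∃ s : Bool, j < 10 → St D σ x j s := by
    intro j
    by_cases hj : j < 10
    · rcases (P.ist (Nat.bodd j)).step (path σ x j) with h | ⟨s, h1, h2⟩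
      · exact absurd h (hm j hj)
      · exact ⟨s, fun _ => ⟨h1, h2⟩⟩
    · exact ⟨true, fun h => absurd h hj⟩
  choose s hs using hs
  have g0 := hs 0 (by norm_num)
  have g1 := hs 1 (by norm_num)
  have g2 := hs 2 (by norm_num)
  have g3 := hs 3 (by norm_num)
  have g4 := hs 4 (by norm_num)
  have g5 := hs 5 (by norm_num)
  have g6 := hs 6 (by norm_num)
  have g7 := hs 7 (by norm_num)
  have g8 := hs 8 (by norm_num)
  have g9 := hs 9 (by norm_num)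
  have h := combB_true (s 0) (s 1) (s 2) (s 3) (s 4) (s 5) (s 6) (s 7) (s 8) (s 9)
  unfold combB at h
  simp only [Bool.or_eq_true] at h
  rcases h with ((((((((((h | h) | h) | h) | h) | h) | h) | h) | h) | h) | h) | h
  · rw [Bool.and_eq_true, beq_iff_eq, beq_iff_eq] at h
    exact Or.inl ⟨0, sq2 P x 0 _ _ g0 g1 (h.1 ▸ g2) (h.2 ▸ g3)⟩
  · rw [Bool.and_eq_true, beq_iff_eq, beq_iff_eq] at h
    exact Or.inl ⟨1, sq2 P x 1 _ _ g1 g2 (h.1 ▸ g3) (h.2 ▸ g4)⟩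
  · rw [Bool.and_eq_true, beq_iff_eq, beq_iff_eq] at h
    exact Or.inl ⟨2, sq2 P x 2 _ _ g2 g3 (h.1 ▸ g4) (h.2 ▸ g5)⟩
  · rw [Bool.and_eq_true, beq_iff_eq, beq_iff_eq] at h
    exact Or.inl ⟨3, sq2 P x 3 _ _ g3 g4 (h.1 ▸ g5) (h.2 ▸ g6)⟩
  · rw [Bool.and_eq_true, beq_iff_eq, beq_iff_eq] at h
    exact Or.inl ⟨4, sq2 P x 4 _ _ g4 g5 (h.1 ▸ g6) (h.2 ▸ g7)⟩
  · rw [Bool.and_eq_true, beq_iff_eq, beq_iff_eq] at h
    exact Or.inl ⟨5, sq2 P x 5 _ _ g5 g6 (h.1 ▸ g7) (h.2 ▸ g8)⟩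
  · rw [Bool.and_eq_true, beq_iff_eq, beq_iff_eq] at h
    exact Or.inl ⟨6, sq2 P x 6 _ _ g6 g7 (h.1 ▸ g8) (h.2 ▸ g9)⟩
  · rw [Bool.and_eq_true, Bool.and_eq_true, Bool.and_eq_true, beq_iff_eq, beq_iff_eq, beq_iff_eq,
      beq_iff_eq] at h
    obtain ⟨⟨⟨a, b⟩, c⟩, d⟩ := h
    exact Or.inr (Or.inl (sq4 P x 0 _ _ _ _ g0 g1 g2 g3 (a ▸ g4) (b ▸ g5) (c ▸ g6) (d ▸ g7)))
  · rw [Bool.and_eq_true, Bool.and_eq_true, beq_iff_eq, beq_iff_eq] at h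
    obtain ⟨⟨a, b⟩, c⟩ := h
    exact (win P x 0 (s 0) (s 1) (s 2) (s 4) (s 6) g0 g1 g2 (a ▸ g3) g4 (b ▸ g5) g6
      (na_of _ _ _ _ c)).elim
  · rw [Bool.and_eq_true, Bool.and_eq_true, beq_iff_eq, beq_iff_eq] at h
    obtain ⟨⟨a, b⟩, c⟩ := h
    exact (win P x 1 (s 1) (s 2) (s 3) (s 5) (s 7) g1 g2 g3 (a ▸ g4) g5 (b ▸ g6) g7
      (na_of _ _ _ _ c)).elim
  · rw [Bool.and_eq_true, Bool.and_eq_true, beq_iff_eq, beq_iff_eq] at h
    obtain ⟨⟨a, b⟩, c⟩ := h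
    exact (win P x 2 (s 2) (s 3) (s 4) (s 6) (s 8) g2 g3 g4 (a ▸ g5) g6 (b ▸ g7) g8
      (na_of _ _ _ _ c)).elim
  · rw [Bool.and_eq_true, Bool.and_eq_true, beq_iff_eq, beq_iff_eq] at h
    obtain ⟨⟨a, b⟩, c⟩ := h
    exact (win P x 3 (s 3) (s 4) (s 5) (s 7) (s 9) g3 g4 g5 (a ▸ g6) g7 (b ▸ g8) g9
      (na_of _ _ _ _ c)).elim

end Pool.Agent.X267.CT
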