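import Mathlib
import Pool.Agent.X267.CT.Comb

set_option autoImplicit false

/-!
# The product of two class transpositions of finite order: orbits are short
-/

namespace Pool.Agent.X267.CT

theorem path_inj {σ : Bool → Equiv.Perm ℤ} (x : ℤ) (i : ℕ)
    (h : path σ x (i + 2) = path σ x i) : path σ x 2 = path σ x 0 := by
  induction i with
  | zero => exact h
  | succ i ih =>
    apply ih
    have b2 : Nat.bodd (i + 2) = Nat.bodd i := by
      rw [Nat.bodd_succ, Nat.bodd_succ, Bool.not_not]
    have h' : σ (Nat.bodd (i + 2)) (path σ x (i + 2)) = σ (Nat.bodd i) (path σ x i) := h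
    rw [b2] at h'
    exact (σ (Nat.bodd i)).injective h'

theorem path_refl {D : Bool → Dat} {σ : Bool → Equiv.Perm ℤ} (P : Pair D σ) (x : ℤ) (b : ℕ) :
    ∀ a : ℕ, Nat.bodd a = Nat.bodd b → path σ x (a + 1) = path σ x b →
      path σ x (a + 1 + b) = path σ x 0 := by
  induction b with
  | zero => intro a _ h; exact h
  | succ b ih =>
    intro a hab h
    have e : path σ x (a + 1 + 1) = path σ x b := by
      have h1 : path σ x (a + 1 + 1) = σ (Nat.bodd (a + 1)) (path σ x (a + 1)) := rfl
      have h2 : path σ x (b + 1) = σ (Nat.bodd b) (path σ x b) := rfl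
      have h3 : Nat.bodd (a + 1) = Nat.bodd b := by
        rw [Nat.bodd_succ, hab, Nat.bodd_succ, Bool.not_not]
      rw [h1, h, h2, h3, (P.ist _).invol]
    have h4 : Nat.bodd (a + 1) = Nat.bodd b := by
      rw [Nat.bodd_succ, hab, Nat.bodd_succ, Bool.not_not]
    have := ih (a + 1) h4 e
    have e2 : a + 1 + (b + 1) = a + 1 + 1 + b := by ring
    rw [e2]; exact this

theorem path_even (σ : Bool → Equiv.Perm ℤ) (x : ℤ) (k : ℕ) :
    path σ x (2 * k) = ((σ true * σ false) ^ k) x := by
  induction k with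
  | zero => rfl
  | succ k ih =>
    have e1 : Nat.bodd (2 * k) = false := by simp
    have e2 : Nat.bodd (2 * k + 1) = true := by simp
    have : path σ x (2 * (k + 1)) = σ (Nat.bodd (2 * k + 1)) (σ (Nat.bodd (2 * k))
      (path σ x (2 * k))) := rfl
    rw [this, e1, e2, ih, pow_succ']
    rfl

theorem one_side {D : Bool → Dat} {σ : Bool → Equiv.Perm ℤ} (P : Pair D σ) (x : ℤ) :
    (∃ j, 0 < j ∧ j ≤ 2 ∧ ((σ true * σ false) ^ j) x = x) ∨
      ∃ m < 10, ((σ true * σ false) ^ m) x = σ false x := by
  rcases trich P x with ⟨i, hi⟩ | h | ⟨m, hm, h⟩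
  · left
    have := path_inj x i hi
    refine ⟨1, one_pos, by norm_num, ?_⟩
    rw [← path_even]
    exact this
  · left
    refine ⟨2, by norm_num, le_rfl, ?_⟩
    rw [← path_even]
    exact h
  · right
    refine ⟨m, hm, ?_⟩
    have h1 := path_refl P x m m rfl h
    have e : m + 1 + m = 2 * m + 1 := by ring
    rw [e] at h1
    have h2 : path σ x (2 * m + 1) = σ (Nat.bodd (2 * m)) (path σ x (2 * m)) := rfl
    have e1 : Nat.bodd (2 * m) = false := by simp
    rw [h2, e1, path_even] at h1
    have h3 : σ false (((σ true * σ false) ^ m) x) = x := h1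
    have h4 := (P.ist false).invol (((σ true * σ false) ^ m) x)
    rw [h3] at h4
    exact h4.symm

theorem short {D : Bool → Dat} {σ : Bool → Equiv.Perm ℤ} (P : Pair D σ) (x : ℤ) :
    ∃ j, 0 < j ∧ j ≤ 19 ∧ ((σ true * σ false) ^ j) x = x := by
  have P' : Pair (fun t => D (!t)) (fun t => σ (!t)) := by
    refine ⟨fun t => P.ist (!t), ?_⟩
    obtain ⟨n, hn, h⟩ := P.fin
    exact ⟨n, hn, fun t => h (!t)⟩
  have hinv : σ false * σ true = (σ true * σ false)⁻¹ := by
    rw [eq_inv_iff_mul_eq_one]
    ext y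
    change σ false (σ true (σ true (σ false y))) = y
    rw [(P.ist true).invol, (P.ist false).invol]
  rcases one_side P x with ⟨j, h0, h2, h⟩ | ⟨m, hm, h⟩
  · exact ⟨j, h0, by omega, h⟩
  rcases one_side P' x with ⟨j, h0, h2, h'⟩ | ⟨m', hm', h'⟩
  · refine ⟨j, h0, by omega, ?_⟩
    simp only [Bool.not_true, Bool.not_false] at h'
    rw [hinv, inv_pow] at h'
    have := congrArg ((σ true * σ false) ^ j) h'
    rw [← Equiv.Perm.mul_apply, mul_inv_cancel] at this
    exact this.symm
  · refine ⟨m' + 1 + m, by omega, by omega, ?_⟩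
    simp only [Bool.not_true, Bool.not_false] at h'
    rw [hinv, inv_pow] at h'
    have h1 : ((σ true * σ false) ^ (1 + m)) x = σ true x := by
      rw [pow_add, pow_one, Equiv.Perm.mul_apply, h]
      change σ true (σ false (σ false x)) = _
      rw [(P.ist false).invol]
    rw [add_assoc, pow_add, Equiv.Perm.mul_apply, h1, ← h', ← Equiv.Perm.mul_apply,
      mul_inv_cancel]
    rfl

end Pool.Agent.X267.CT
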